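import Pool.Agent.Y813.LE.Stm2
import Pool.Agent.Y813.RL.Comp

set_option autoImplicit false

/-!
# LEE: independence of the component (JobComp)
-/

namespace Pool.Agent.Y448.LE

open Set Topology
open Pool.Agent.Y813.RL (bf bf_smul_left bf_smul_right act_act_inv act_inv_act conjHom actH path_mem
  act_quadric PC PC_mul mem_disc)
open Pool.Agent.Y813.Lee (gramM IsModularForm HasCompleteTwoDivisor)
open Pool.Agent.Y813.Refl (form quadric act discKernel act_mul act_one form_act_of_int act_cast)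
open Pool.Agent.Y813.LE

noncomputable section

section

variable {ι : Type} [Fintype ι] [DecidableEq ι] {B : Matrix ι ι ℤ}

/-- transport of modular forms with complete 2-divisor along an isometry -/
theorem transport {g : Matrix.GeneralLinearGroup ι ℤ} {A A' : Set (ι → ℂ)}
    (hg : ∀ x y : ι → ℤ, form B (act g.val x) (act g.val y) = form B x y)
    (hA : ∀ Z, Z ∈ A' ↔ act g.val Z ∈ A) {k : ℤ} {χ : discKernel B A →* ℂˣ}
    {F : (ι → ℂ) → ℂ} (hF : IsModularForm B A k χ F) (hD : HasCompleteTwoDivisor B A F) :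
    IsModularForm B A' k (χ.comp (conjHom g hg hA)) (fun Z => F (act g.val Z)) ∧
      HasCompleteTwoDivisor B A' (fun Z => F (act g.val Z)) := by
  have hdiff : Differentiable ℂ (act g.val : (ι → ℂ) → (ι → ℂ)) := by
    unfold act
    fun_prop
  have hcont : Continuous (act g.val : (ι → ℂ) → (ι → ℂ)) := hdiff.continuous
  obtain ⟨hholo, hhom, hequi⟩ := hF
  refine ⟨⟨?_, ?_, ?_⟩, ?_⟩
  · exact hholo.comp hdiff.differentiableOn fun Z hZ => (hA Z).1 hZ
  · intro Z hZ t ht
    rw [← hhom _ ((hA Z).1 hZ) t ht]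
    congr 1
    funext i
    simp only [act, Finset.mul_sum]
    exact Finset.sum_congr rfl fun j _ => by ring
  · intro γ Z hZ
    rw [MonoidHom.comp_apply, ← hequi (conjHom g hg hA γ) _ ((hA Z).1 hZ)]
    congr 1
    show _ = act (g * γ.1 * g⁻¹).val (act g.val Z)
    rw [Units.val_mul, Units.val_mul, act_mul, act_mul, act_inv_act]
  · intro Z₀ hZ₀
    obtain ⟨S, U, u, h1, h2, h3, h4, h5, h6, h7⟩ := hD _ ((hA Z₀).1 hZ₀)
    have hinj : Function.Injective (act (g⁻¹).val : (ι → ℤ) → (ι → ℤ)) := by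
      intro x y hxy
      rw [← act_act_inv g x, hxy, act_act_inv]
    have hfz : ∀ (v : ι → ℤ) (Z : ι → ℂ), form B (fun i => ((act (g⁻¹).val v i : ℤ) : ℂ)) Z =
        form B (fun i => (v i : ℂ)) (act g.val Z) := by
      intro v Z
      rw [← act_cast, ← form_act_of_int hg, act_act_inv]
    have hmem : ∀ v : ι → ℤ, v ∈ S.image (act (g⁻¹).val) ↔ act g.val v ∈ S := by
      intro v
      rw [Finset.mem_image]
      constructor
      · rintro ⟨w, hw, rfl⟩
        rwa [act_act_inv]
      · intro hv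
        exact ⟨_, hv, act_inv_act g v⟩
    refine ⟨S.image (act (g⁻¹).val), act g.val ⁻¹' U, fun Z => u (act g.val Z), ?_, ?_,
      h3.preimage hcont, h4, ?_, ?_, ?_⟩
    · intro v hv
      rw [Finset.mem_image] at hv
      obtain ⟨w, hw, rfl⟩ := hv
      obtain ⟨k1, k2⟩ := h1 w hw
      refine ⟨?_, ?_⟩
      · rw [← hg, act_act_inv]
        exact k1
      · rw [hfz]
        exact k2
    · intro v hv hvZ
      rw [hmem, hmem]
      have e1 : act g.val (-v) = -act g.val v := by
        funext i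
        simp [act]
      rw [e1]
      apply h2
      · rw [hg]; exact hv
      · rw [← act_cast, form_act_of_int hg]
        exact hvZ
    · exact h5.comp hdiff.differentiableOn fun Z hZ => ⟨hZ.1, (hA Z).1 hZ.2⟩
    · intro Z hZ
      exact h6 _ ⟨hZ.1, (hA Z).1 hZ.2⟩
    · intro Z hZ
      show F (act g.val Z) = u (act g.val Z) * _
      rw [h7 _ ⟨hZ.1, (hA Z).1 hZ.2⟩, Finset.prod_image fun x _ y _ hxy => hinj hxy]
      congr 1
      exact Finset.prod_congr rfl fun v _ => (hfz v Z).symm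

end

variable {r : ℕ} {G : Matrix (Fin r) (Fin r) ℤ}

theorem param_of_sg {Z : Fin 4 ⊕ Fin r → ℂ} (hq : Z ∈ quadric (gramM G))
    (hs : 0 < sg Z) : Z (.inl 0) ≠ 0 ∧ ∃ W ∈ Hd G, Z = fun i => Z (.inl 0) * ZW G W i := by
  have ha : Z (.inl 0) ≠ 0 := by
    intro h0
    simp [sg, h0] at hs
  refine ⟨ha, ?_⟩
  have hq' := hq
  rw [mk_eta Z, quadric_mk] at hq'
  have hZ' := mk_eta Z
  unfold sg at hs
  set a := Z (.inl 0)
  set b := Z (.inl 1)
  set c := Z (.inl 2)
  set d := Z (.inl 3)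
  set z : Fin r → ℂ := fun i => Z (.inr i)
  have e1 : (fun i => a⁻¹ * Z i) = mk 1 (a⁻¹ * b) (a⁻¹ * c) (a⁻¹ * d) (fun i => a⁻¹ * z i) := by
    conv_lhs => rw [hZ']
    rw [smul_mk, inv_mul_cancel₀ ha]
  have hmem : (fun i => a⁻¹ * Z i) ∈ quadric (gramM G) := by
    rw [mem_quadric] at hq ⊢
    have f1 : (fun i => a⁻¹ * Z i) = a⁻¹ • Z := by funext i; simp
    have f2 : (fun i => (starRingEnd ℂ) (a⁻¹ * Z i)) =
        (starRingEnd ℂ a⁻¹) • fun i => (starRingEnd ℂ) (Z i) := by
      funext i; simp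
    rw [f1, f2, bf_smul_left, bf_smul_right, bf_smul_left, bf_smul_right, hq.1]
    refine ⟨by simp, ?_⟩
    rw [← mul_assoc, Complex.mul_conj, Complex.re_ofReal_mul]
    exact mul_pos (Complex.normSq_pos.2 (inv_ne_zero ha)) hq.2
  rw [e1] at hmem
  have e2 := eq_ZW G hmem
  have hτ : 0 < (a⁻¹ * d).im := by
    have : a⁻¹ * d = (((Complex.normSq a)⁻¹ : ℝ) : ℂ) * (d * starRingEnd ℂ a) := by
      rw [Complex.inv_def]
      ring
    rw [this, Complex.im_ofReal_mul]
    exact mul_pos (inv_pos.2 (Complex.normSq_pos.2 ha)) hs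
  refine ⟨(a⁻¹ * c, (a⁻¹ * d, fun i => a⁻¹ * z i)), ⟨hτ, ?_⟩, ?_⟩
  · exact (ZW_mem G hτ).1 (e2 ▸ hmem)
  · rw [← e2, ← e1]
    funext i
    field_simp

theorem mem_cone_of_sg (h : PosD G) {Z : Fin 4 ⊕ Fin r → ℂ} (hq : Z ∈ quadric (gramM G))
    (hs : 0 < sg Z) : Z ∈ coneM G := by
  obtain ⟨ha, W, hW, hZ⟩ := param_of_sg hq hs
  set a := Z (.inl 0)
  have hWc := ZW_mem_cone h hW
  have hWq : ZW G W ∈ quadric (gramM G) := (ZW_mem G hW.1).2 hW.2
  have heq : connectedComponentIn (quadric (gramM G)) (ZW G W) = coneM G := by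
    rw [coneM_eq] at hWc ⊢
    exact (connectedComponentIn_eq hWc).symm
  rw [← heq]
  let γ : ℝ → Fin 4 ⊕ Fin r → ℂ := fun s => Complex.exp (s * Complex.log a) • ZW G W
  have hγ1 : γ 1 = Z := by
    rw [hZ]
    simp only [γ]
    rw [Complex.ofReal_one, one_mul, Complex.exp_log ha]
    funext i
    rfl
  rw [← hγ1]
  apply path_mem γ
  · simp only [γ]
    fun_prop
  · simp [γ]
  · intro s _
    rw [mem_quadric] at hWq ⊢
    simp only [γ]
    have f2 : (fun i => (starRingEnd ℂ) ((Complex.exp (s * Complex.log a) • ZW G W) i)) =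
        (starRingEnd ℂ (Complex.exp (s * Complex.log a))) •
          fun i => (starRingEnd ℂ) (ZW G W i) := by
      funext i; simp
    rw [f2, bf_smul_left, bf_smul_right, bf_smul_left, bf_smul_right, hWq.1]
    refine ⟨by simp, ?_⟩
    rw [← mul_assoc, Complex.mul_conj, Complex.re_ofReal_mul]
    exact mul_pos (Complex.normSq_pos.2 (Complex.exp_ne_zero _)) hWq.2

theorem act_PC {R : Type*} [CommRing R] (a b c d : R) (z : Fin r → R) :
    act (blk PC) (mk a b c d z) = mk a b (-c) (-d) z := by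
  funext i
  rcases i with i | i
  · match i with
    | 0 => simp [act, blk, mk, PC, Fintype.sum_sum_type, Fin.sum_univ_four]
    | 1 => simp [act, blk, mk, PC, Fintype.sum_sum_type, Fin.sum_univ_four]
    | 2 => simp [act, blk, mk, PC, Fintype.sum_sum_type, Fin.sum_univ_four]
    | 3 => simp [act, blk, mk, PC, Fintype.sum_sum_type, Fin.sum_univ_four]
  · rw [act_blk_inr]; rfl

theorem PC_form (x y : Fin 4 ⊕ Fin r → ℤ) :
    form (gramM G) (act (blkG PC_mul PC_mul).val x) (act (blkG PC_mul PC_mul).val y) =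
      form (gramM G) x y := by
  show bf _ (act (blk PC) x) (act (blk PC) y) = bf _ x y
  rw [mk_eta x, mk_eta y, act_PC, act_PC, bf_mk, bf_mk]
  ring

/-- **COMP.** -/
theorem comp : JobComp := by
  intro r G h Z₀ hZ₀ ⟨k, χ, F, hF, hD⟩
  rcases lt_or_gt_of_ne (sg_ne_zero h hZ₀) with hs | hs
  · set g : Matrix.GeneralLinearGroup (Fin 4 ⊕ Fin r) ℤ := blkG PC_mul PC_mul with hg
    have hgq : ∀ Z : Fin 4 ⊕ Fin r → ℂ, act g.val Z ∈ quadric (gramM G) ↔
        Z ∈ quadric (gramM G) := act_quadric PC_form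
    have hsg : 0 < sg (act g.val Z₀) := by
      have e : sg (act g.val Z₀) = -sg Z₀ := by
        have : act g.val Z₀ = act (blk PC) Z₀ := rfl
        rw [this, mk_eta Z₀, act_PC]
        simp [sg, mk]
      rw [e]
      linarith
    have hc : act g.val Z₀ ∈ coneM G := mem_cone_of_sg h ((hgq Z₀).2 hZ₀) hsg
    have hgg : ∀ Z : Fin 4 ⊕ Fin r → ℂ, act g.val (act g.val Z) = Z := by
      intro Z
      rw [← act_mul, hg]
      have : (blkG PC_mul PC_mul).val * (blkG PC_mul PC_mul).val =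
          (1 : Matrix (Fin 4 ⊕ Fin r) (Fin 4 ⊕ Fin r) ℤ) := (blkG PC_mul PC_mul).val_inv
      rw [this, act_one]
    have himg : actH g '' quadric (gramM G) = quadric (gramM G) := by
      ext Z
      constructor
      · rintro ⟨Y, hY, rfl⟩
        exact (hgq Y).2 hY
      · intro hZ
        exact ⟨act g.val Z, (hgq Z).2 hZ, hgg Z⟩
    have hcomp : actH g '' connectedComponentIn (quadric (gramM G)) Z₀ = coneM G := by
      rw [Homeomorph.image_connectedComponentIn _ hZ₀, himg]
      have e : actH g Z₀ = act g.val Z₀ := rfl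
      rw [e]
      rw [coneM_eq] at hc ⊢
      exact (connectedComponentIn_eq hc).symm
    have hA : ∀ Z, Z ∈ coneM G ↔
        act g.val Z ∈ connectedComponentIn (quadric (gramM G)) Z₀ := by
      intro Z
      rw [← hcomp]
      constructor
      · rintro ⟨Y, hY, rfl⟩
        have : act g.val (actH g Y) = Y := hgg Y
        rwa [this]
      · intro hZ
        exact ⟨act g.val Z, hZ, hgg Z⟩
    have ht := transport (g := g) PC_form hA hF hD
    exact ⟨k, _, _, ht.1, ht.2⟩
  · have hc := mem_cone_of_sg h hZ₀ hs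
    have heq : connectedComponentIn (quadric (gramM G)) Z₀ = coneM G := by
      rw [coneM_eq] at hc ⊢
      exact (connectedComponentIn_eq hc).symm
    rw [← heq]
    exact ⟨k, χ, F, hF, hD⟩

end

end Pool.Agent.Y448.LE
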