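import Pool.Agent.Y448.LE.Comp
import Pool.Agent.Y813.RL.Tube5

set_option autoImplicit false

/-!
# LEE: from the cone to the tube domain (JobTube)
-/

namespace Pool.Agent.Y448.LE

open Set Topology
open Pool.Agent.Y813.RL (bf bf_smul_left bf_smul_right bf_zero_left bf_zero_right bf_add_left
  bf_add_right bf_neg_left bf_neg_right bf_comm bf_intCast bf_diffC imv even_bf bf_eq_act
  mem_disc tv tvM tvG tvG_mem act_tvM PS PS' PS_mul PS_mul' PW PW_mul)
open Pool.Agent.Y813.Lee (gramM IsModularForm HasCompleteTwoDivisor)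
open Pool.Agent.Y813.Refl (form quadric act discKernel act_mul act_one form_act_of_int act_cast)
open Pool.Agent.Y813.LE

noncomputable section

variable {r : ℕ} {G : Matrix (Fin r) (Fin r) ℤ}

/-- the transformation law in tube coordinates -/
theorem trans_law (h : PosD G) {k : ℤ} {χ : discKernel (gramM G) (coneM G) →* ℂˣ}
    {F₀ : (Fin 4 ⊕ Fin r → ℂ) → ℂ} (hF : IsModularForm (gramM G) (coneM G) k χ F₀)
    {g : Matrix.GeneralLinearGroup (Fin 4 ⊕ Fin r) ℤ}
    (hg : g ∈ discKernel (gramM G) (coneM G)) (hχ : χ ⟨g, hg⟩ ^ 12 = 1) {W W' : TP r}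
    (hW : W ∈ Hd G) {j : ℂ} (hj : j ≠ 0)
    (hZ : act g.val (ZW G W) = fun i => j * ZW G W' i) :
    F₀ (ZW G W') ^ 12 = j ^ (12 * k) * F₀ (ZW G W) ^ 12 := by
  have hc := ZW_mem_cone h hW
  have h1 := hF.equi ⟨g, hg⟩ _ hc
  have h2 : act g.val (ZW G W) ∈ coneM G := (hg.2.1 _).2 hc
  have h3 := hF.homog _ h2 j⁻¹ (inv_ne_zero hj)
  have h4 : (fun i => j⁻¹ * act g.val (ZW G W) i) = ZW G W' := by
    rw [hZ]
    funext i
    field_simp
  rw [h4] at h3
  have h1' : F₀ (act g.val (ZW G W)) = (χ ⟨g, hg⟩ : ℂ) * F₀ (ZW G W) := h1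
  rw [h3, h1', mul_pow, mul_pow]
  have h5 : ((χ ⟨g, hg⟩ : ℂˣ) : ℂ) ^ 12 = 1 := by
    rw [← Units.val_pow_eq_pow_val, hχ]
    simp
  rw [h5, one_mul]
  congr 1
  have h6 : (j : ℂ) ^ (12 * k) = (j ^ k) ^ 12 := by
    rw [mul_comm, zpow_mul]
    norm_cast
  rw [inv_zpow', neg_neg, h6]

theorem bf_div (a : Fin r → ℂ) (j : ℂ) :
    bf G (fun i => a i / j) (fun i => a i / j) = bf G a a / j ^ 2 := by
  have : (fun i => a i / j) = j⁻¹ • a := by funext i; simp [div_eq_inv_mul]
  rw [this, bf_smul_left, bf_smul_right]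
  ring

theorem eq_smul_ZW {a b c d : ℂ} {z : Fin r → ℂ} (ha : a ≠ 0)
    (h : 2 * (a * b + c * d) = bf G z z) :
    Y813.LE.mk a b c d z = fun i => a * ZW G (c / a, (d / a, fun i => z i / a)) i := by
  unfold ZW
  rw [smul_mk]
  simp only
  rw [bf_div, ← h]
  congr 1
  · ring
  · field_simp
    ring
  · field_simp
  · field_simp
  · funext i
    field_simp

theorem quadric_eq {a b c d : ℂ} {z : Fin r → ℂ}
    (h : Y813.LE.mk a b c d z ∈ quadric (gramM G)) :
    2 * (a * b + c * d) = bf G z z := ((quadric_mk G a b c d z).1 h).1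

theorem disc_quadric {g : Matrix.GeneralLinearGroup (Fin 4 ⊕ Fin r) ℤ}
    (h : PosD G) (hg : g ∈ discKernel (gramM G) (coneM G)) {W : TP r} (hW : W ∈ Hd G) :
    act g.val (ZW G W) ∈ quadric (gramM G) := by
  have h2 : act g.val (ZW G W) ∈ coneM G := (hg.2.1 _).2 (ZW_mem_cone h hW)
  rw [coneM_eq] at h2
  exact connectedComponentIn_subset _ _ h2

theorem diff_ZW : Differentiable ℂ (ZW G) := by
  rw [differentiable_pi]
  have h1 : Differentiable ℂ fun W : TP r => bf G W.2.2 W.2.2 := by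
    rw [← differentiableOn_univ]
    exact bf_diffC G (by fun_prop) (by fun_prop)
  rintro (i | i)
  · match i with
    | 0 => exact differentiable_const _
    | 1 =>
      have h2 : Differentiable ℂ fun W : TP r => bf G W.2.2 W.2.2 / 2 := by
        simp only [div_eq_mul_inv]
        exact h1.mul_const _
      exact h2.sub (by fun_prop : Differentiable ℂ fun W : TP r => W.1 * W.2.1)
    | 2 => exact (by fun_prop : Differentiable ℂ fun W : TP r => W.1)
    | 3 => exact (by fun_prop : Differentiable ℂ fun W : TP r => W.2.1)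
  · exact (by fun_prop : Differentiable ℂ fun W : TP r => W.2.2 i)

/-- casts of vectors -/
theorem cast_mk {R : Type*} [CommRing R] (a b c d : ℤ) (z : Fin r → ℤ) :
    (fun i => ((Y813.LE.mk a b c d z : Fin 4 ⊕ Fin r → ℤ) i : R)) =
      Y813.LE.mk (a : R) (b : R) (c : R) (d : R) (fun i => (z i : R)) := by
  funext i
  rcases i with i | i
  · match i with
    | 0 => simp [Y813.LE.mk]
    | 1 => simp [Y813.LE.mk]
    | 2 => simp [Y813.LE.mk]
    | 3 => simp [Y813.LE.mk]
  · simp [Y813.LE.mk]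

/-- the linear form of a vector in tube coordinates -/
theorem bf_ZW (a b c d : ℂ) (z : Fin r → ℂ) (W : TP r) :
    bf (gramM G) (Y813.LE.mk a b c d z) (ZW G W) =
      a * (bf G W.2.2 W.2.2 / 2 - W.1 * W.2.1) + b + c * W.2.1 + d * W.1 - bf G z W.2.2 := by
  rw [ZW, bf_mk]
  ring

/-- the linear form of a vector of `K` in tube coordinates -/
theorem bf_kM_ZW (e : ℤ × (ℤ × (Fin r → ℤ))) (W : TP r) :
    bf (gramM G) (fun i => ((kM e i : ℤ) : ℂ)) (ZW G W) = kf G (cK e) W := by
  unfold kM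
  rw [cast_mk, bf_ZW]
  unfold kf cK
  push_cast
  ring

theorem bf_kM (e u : ℤ × (ℤ × (Fin r → ℤ))) :
    bf (gramM G) (kM e) (kM u) = kf G e u := by
  unfold kM
  rw [bf_mk]
  unfold kf
  ring

section refl

variable {ι : Type} [Fintype ι] [DecidableEq ι]

/-- the matrix of the reflection in a vector of norm `-2` -/
def rfM (B : Matrix ι ι ℤ) (e : ι → ℤ) : Matrix ι ι ℤ :=
  Matrix.of fun i j => (if i = j then 1 else 0) + e i * act B e j

theorem act_rfM {R : Type*} [CommRing R] {B : Matrix ι ι ℤ} (hB : B.IsSymm) (e : ι → ℤ)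
    (x : ι → R) :
    act (rfM B e) x = x + bf B (fun i => (e i : R)) x • fun i => (e i : R) := by
  have key : ∀ w : ι → ℤ, ∑ j, ((act B w j : ℤ) : R) * x j = bf B (fun i => (w i : R)) x := by
    intro w
    simp only [act, Int.cast_sum, Int.cast_mul, bf, Finset.sum_mul]
    rw [Finset.sum_comm]
    refine Finset.sum_congr rfl fun i _ => Finset.sum_congr rfl fun j _ => ?_
    rw [hB.apply]
    simp only [Int.cast_id]
    ring
  funext i
  simp only [Pi.add_apply, Pi.smul_apply, smul_eq_mul, ← key]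
  have : ∀ j, ((rfM B e i j : ℤ) : R) * x j
      = (if i = j then x j else 0) + ((act B e j : ℤ) : R) * x j * e i := by
    intro j
    simp only [rfM, Matrix.of_apply]
    split_ifs <;> push_cast <;> ring
  rw [act, Finset.sum_congr rfl fun j _ => this j]
  simp only [Finset.sum_add_distrib, Finset.sum_ite_eq, Finset.mem_univ, if_true,
    ← Finset.sum_mul]

omit [DecidableEq ι] in
theorem rf_form {R : Type*} [CommRing R] {B : Matrix ι ι ℤ} (hB : B.IsSymm) {e : ι → R}
    (he : bf B e e = -2) (x y : ι → R) :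
    bf B (x + bf B e x • e) (y + bf B e y • e) = bf B x y := by
  simp only [bf_add_left, bf_add_right, bf_smul_left, bf_smul_right, he]
  rw [bf_comm hB x e]
  ring

omit [DecidableEq ι] in
theorem rf_inv {R : Type*} [CommRing R] {B : Matrix ι ι ℤ} {e : ι → R}
    (he : bf B e e = -2) (x : ι → R) :
    (x + bf B e x • e) + bf B e (x + bf B e x • e) • e = x := by
  rw [bf_add_right, bf_smul_right, he]
  funext i
  simp only [Pi.add_apply, Pi.smul_apply, smul_eq_mul]
  ring

theorem rfM_mul {B : Matrix ι ι ℤ} (hB : B.IsSymm) {e : ι → ℤ} (he : bf B e e = -2) :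
    rfM B e * rfM B e = 1 := by
  ext i j
  have h1 : act (rfM B e * rfM B e) (Pi.single j (1 : ℤ)) = Pi.single j 1 := by
    rw [act_mul, act_rfM hB, act_rfM hB]
    have he' : bf B (fun i => ((e i : ℤ) : ℤ)) (fun i => ((e i : ℤ) : ℤ)) = -2 := by
      simpa using he
    exact rf_inv he' _
  have h2 := congrFun h1 i
  simpa [act, Pi.single_apply, Matrix.one_apply] using h2

/-- the reflection as an invertible matrix -/
def rfG {B : Matrix ι ι ℤ} (hB : B.IsSymm) {e : ι → ℤ} (he : bf B e e = -2) :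
    Matrix.GeneralLinearGroup ι ℤ :=
  ⟨rfM B e, rfM B e, rfM_mul hB he, rfM_mul hB he⟩

end refl

/-- the reflections in vectors of `K` of norm `-2` are in the discriminant kernel -/
theorem rfG_mem (h : PosD G) {e : ℤ × (ℤ × (Fin r → ℤ))} (he : kf G e e = -2)
    (he' : bf (gramM G) (kM e) (kM e) = -2) :
    rfG (gramM_symm h.symm) he' ∈ discKernel (gramM G) (coneM G) := by
  have hMs := gramM_symm h.symm
  have hform : ∀ x y : Fin 4 ⊕ Fin r → ℤ, form (gramM G) (act (rfM (gramM G) (kM e)) x)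
      (act (rfM (gramM G) (kM e)) y) = form (gramM G) x y := by
    intro x y
    show bf _ (act (rfM (gramM G) (kM e)) x) (act (rfM (gramM G) (kM e)) y) = bf _ x y
    rw [act_rfM hMs, act_rfM hMs]
    have he2 : bf (gramM G) (fun i => ((kM e i : ℤ) : ℤ)) (fun i => ((kM e i : ℤ) : ℤ)) = -2 := by
      simpa using he'
    exact rf_form hMs he2 x y
  rw [coneM_eq]
  apply mem_disc (base_mem G)
  · exact hform
  · rw [← coneM_eq]
    show act (rfM (gramM G) (kM e)) (ZW G W0) ∈ coneM G
    apply mem_cone_of_sg h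
    · exact (Y813.RL.act_quadric hform _).2 (base_mem G)
    · have e1 : sg (act (rfM (gramM G) (kM e)) (ZW G W0)) =
          1 + (e.1 + e.2.1 : ℤ) * (e.2.1 : ℤ) := by
        rw [act_rfM hMs, bf_kM_ZW]
        have e2 : kf G (cK e) (W0 : TP r) = ((e.1 + e.2.1 : ℤ) : ℂ) * Complex.I := by
          have e3 : bf G (cK e).2.2 (W0 : TP r).2.2 = 0 := bf_zero_right _ _
          unfold kf
          rw [e3]
          simp only [cK, W0]
          push_cast
          ring
        rw [e2]
        have e4 : ZW G (W0 : TP r) = Y813.LE.mk 1 1 Complex.I Complex.I 0 := by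
          rw [ZW_W0]; rfl
        unfold kM
        rw [cast_mk, e4]
        unfold sg
        simp only [Pi.add_apply, Pi.smul_apply, smul_eq_mul, Y813.LE.mk, Sum.elim_inl]
        simp [Complex.mul_im]
      rw [e1]
      have h1 : (0 : ℝ) ≤ bf G (fun i => (e.2.2 i : ℝ)) (fun i => (e.2.2 i : ℝ)) := h.nonneg _
      have h2 : ((kf G e e : ℤ) : ℝ) = 2 * (e.1 : ℝ) * (e.2.1 : ℝ) -
          bf G (fun i => (e.2.2 i : ℝ)) (fun i => (e.2.2 i : ℝ)) := by
        rw [bf_intCast]
        unfold kf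
        push_cast
        ring
      rw [he] at h2
      push_cast at h2 ⊢
      rcases eq_or_ne e.2.1 0 with h0 | h0
      · rw [h0]
        simp
      · have h3 : (0 : ℝ) < (e.2.1 : ℝ) ^ 2 := by
          have : (e.2.1 : ℝ) ≠ 0 := by exact_mod_cast h0
          positivity
        nlinarith
  · intro x hx
    obtain ⟨m, hm⟩ := hx (kM e)
    have hm' : bf (gramM G) (fun i => ((kM e i : ℤ) : ℚ)) x = m := by
      rw [bf_comm hMs]; exact hm
    refine ⟨fun i => m * kM e i, fun i => ?_⟩
    show act (rfM (gramM G) (kM e)) x i - x i = _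
    rw [act_rfM hMs, hm']
    simp only [Pi.add_apply, Pi.smul_apply, smul_eq_mul]
    push_cast
    ring

end

end Pool.Agent.Y448.LE
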