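import Pool.Agent.Y448.LE.Tube

set_option autoImplicit false

/-!
# LEE: from the cone to the tube domain (JobTube)
-/

namespace Pool.Agent.Y448.LE

open Set Topology
open Pool.Agent.Y813.RL (bf bf_smul_left bf_smul_right bf_zero_left bf_zero_right bf_add_left
  bf_add_right bf_neg_left bf_neg_right bf_comm bf_intCast bf_diffC imv even_bf bf_eq_act
  mem_disc tv tvM tvG tvG_mem act_tvM PS PS' PS_mul PS_mul' PW PW_mul)
open Pool.Agent.Y813.Lee (gramM IsModularForm HasCompleteTwoDivisor)
open Pool.Agent.Y813.Refl (form quadric act discKernel act_mul act_one form_act_of_int act_cast)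
open Pool.Agent.Y813.LE

noncomputable section

variable {r : ℕ} {G : Matrix (Fin r) (Fin r) ℤ}

/-- the linear form of the vector of `M` with `WL a b m n v` -/
theorem form_WL (a b m n : ℤ) (v : Fin r → ℤ) (W : TP r) :
    form (gramM G) (fun i => ((Y813.LE.mk a b n m (-v) : Fin 4 ⊕ Fin r → ℤ) i : ℂ)) (ZW G W) =
      WL G a b m n v W := by
  show bf _ _ _ = _
  rw [cast_mk, bf_ZW]
  have : (fun i => (((-v) i : ℤ) : ℂ)) = -fun i => (v i : ℂ) := by funext i; simp
  rw [this, bf_neg_left]
  unfold WL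
  ring

theorem form_vv (a b m n : ℤ) (v : Fin r → ℤ) :
    form (gramM G) (Y813.LE.mk a b n m (-v) : Fin 4 ⊕ Fin r → ℤ)
      (Y813.LE.mk a b n m (-v)) = 2 * (a * b) + 2 * (m * n) - bf G v v := by
  show bf _ _ _ = _
  rw [bf_mk, bf_neg_left, bf_neg_right]
  ring

theorem vec_eq (w : Fin 4 ⊕ Fin r → ℤ) :
    w = Y813.LE.mk (w (.inl 0)) (w (.inl 1)) (w (.inl 2)) (w (.inl 3))
      (-(fun i => -w (.inr i))) := by
  conv_lhs => rw [mk_eta w]
  congr 1
  funext i
  simp

/-- the vectors of norm `-2` and their linear forms -/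
theorem vec_wall {w : Fin 4 ⊕ Fin r → ℤ} (hw : form (gramM G) w w = -2) {W : TP r}
    (hW : form (gramM G) (fun i => (w i : ℂ)) (ZW G W) = 0) :
    bf G (fun i => -w (.inr i)) (fun i => -w (.inr i)) - 2 * (w (.inl 0) * w (.inl 1)) -
      2 * (w (.inl 3) * w (.inl 2)) = 2 ∧
    WL G (w (.inl 0)) (w (.inl 1)) (w (.inl 3)) (w (.inl 2)) (fun i => -w (.inr i)) W = 0 := by
  have h1 := form_vv (G := G) (w (.inl 0)) (w (.inl 1)) (w (.inl 3)) (w (.inl 2))
    (fun i => -w (.inr i))
  have h2 := form_WL (G := G) (w (.inl 0)) (w (.inl 1)) (w (.inl 3)) (w (.inl 2))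
    (fun i => -w (.inr i)) W
  rw [← vec_eq w] at h1 h2
  rw [hw] at h1
  rw [hW] at h2
  exact ⟨by linarith, h2.symm⟩

theorem Hd_base : ((3 * Complex.I, (Complex.I, 0)) : TP r) ∈ Hd G := by
  rw [mem_Hd]
  have : imv ((3 * Complex.I, (Complex.I, 0)) : TP r).2.2 = 0 := by funext i; simp [imv]
  rw [this, bf_zero_left]
  simp

/-- no wall passes through `(3 i, i, 0)` -/
theorem no_wall (h : ER G) {a b m n : ℤ} {v : Fin r → ℤ}
    (hv : bf G v v - 2 * (a * b) - 2 * (m * n) = 2) :
    WL G a b m n v ((3 * Complex.I, (Complex.I, 0)) : TP r) ≠ 0 := by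
  intro h0
  unfold WL at h0
  have e1 : bf G (0 : Fin r → ℂ) (0 : Fin r → ℂ) = 0 := bf_zero_left _ _
  have e2 : bf G (fun i => (v i : ℂ)) (0 : Fin r → ℂ) = 0 := bf_zero_right _ _
  simp only at h0
  rw [e1, e2] at h0
  have hre := congrArg Complex.re h0
  have him := congrArg Complex.im h0
  simp at hre him
  have h1 : 3 * a + b = 0 := by
    have : (3 * a + b : ℝ) = 0 := by linarith
    exact_mod_cast this
  have h2 : 3 * m + n = 0 := by
    have : (3 * m + n : ℝ) = 0 := by linarith
    exact_mod_cast this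
  have hb : b = -3 * a := by linarith
  have hn : n = -3 * m := by linarith
  subst hb
  subst hn
  have h3 : (0 : ℝ) ≤ bf G (fun i => (v i : ℝ)) (fun i => (v i : ℝ)) := h.nonneg _
  rw [bf_intCast] at h3
  have h4 : 0 ≤ bf G v v := by exact_mod_cast h3
  have h5 : a = 0 := by
    by_contra hne
    have : 1 ≤ a ^ 2 := by
      have := sq_nonneg a
      have h7 : a ^ 2 ≠ 0 := pow_ne_zero 2 hne
      omega
    nlinarith [sq_nonneg m]
  have h6 : m = 0 := by
    by_contra hne
    have : 1 ≤ m ^ 2 := by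
      have := sq_nonneg m
      have h7 : m ^ 2 ≠ 0 := pow_ne_zero 2 hne
      omega
    nlinarith [sq_nonneg a]
  subst h5
  subst h6
  apply h.noroot v
  linarith

/-- **TUBE.** -/
theorem tube (hc : JobChar) : JobTube := by
  intro r G h k χ F₀ hF hD
  have hP : PosD G := h.toPosD
  have hMs := gramM_symm h.symm
  have he := h.even
  refine ⟨?_, ?_, ?_, ?_, ?_, ?_, ?_, ?_, ?_⟩
  · -- holomorphy
    exact (hF.holo.comp diff_ZW.differentiableOn fun W hW => ZW_mem_cone hP hW).pow 12
  · -- translations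
    intro W hW a b v
    obtain ⟨N, hN⟩ := even_bf h.symm he v
    have hee : bf (gramM G) (Y813.LE.mk 0 1 0 0 0 : Fin 4 ⊕ Fin r → ℤ)
        (Y813.LE.mk 0 1 0 0 0) = 0 := by
      rw [bf_mk, bf_zero_left]; ring
    have hea : bf (gramM G) (Y813.LE.mk 0 1 0 0 0 : Fin 4 ⊕ Fin r → ℤ)
        (Y813.LE.mk 0 0 a b v) = 0 := by
      rw [bf_mk, bf_zero_left]; ring
    have haa : bf (gramM G) (Y813.LE.mk 0 0 a b v : Fin 4 ⊕ Fin r → ℤ)
        (Y813.LE.mk 0 0 a b v) = 2 * (a * b - N) := by
      rw [bf_mk, hN]; ring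
    have hg := tvG_mem hMs (base_mem G) hee hea haa
    rw [← coneM_eq] at hg
    have hχ : χ ⟨tvG hMs hee hea haa, hg⟩ ^ 12 = 1 := by
      apply hc r G hP he
      left
      refine ⟨(a, (b, v)), a * b - N, ?_, rfl⟩
      unfold kf
      simp only
      rw [hN]
      ring
    have hact : act (tvG hMs hee hea haa).val (ZW G W) =
        Y813.LE.mk 1 (bf G (fun i => W.2.2 i + v i) (fun i => W.2.2 i + v i) / 2 -
          (W.1 + a) * (W.2.1 + b)) (W.1 + a) (W.2.1 + b) (fun i => W.2.2 i + v i) := by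
      show act (tvM _ _ _ _) (ZW G W) = _
      rw [act_tvM hMs, cast_mk, cast_mk]
      have c0 : (fun i => (((0 : Fin r → ℤ) i : ℤ) : ℂ)) = 0 := by funext i; simp
      rw [c0]
      have hbz : bf G (0 : Fin r → ℂ) W.2.2 = 0 := bf_zero_left _ _
      have e1 : bf (gramM G) (Y813.LE.mk ((0 : ℤ) : ℂ) ((1 : ℤ) : ℂ) ((0 : ℤ) : ℂ) ((0 : ℤ) : ℂ) 0)
          (ZW G W) = 1 := by
        rw [bf_ZW, hbz]; push_cast; ring
      have e2 : bf (gramM G) (Y813.LE.mk ((0 : ℤ) : ℂ) ((0 : ℤ) : ℂ) (a : ℂ) (b : ℂ)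
          (fun i => (v i : ℂ))) (ZW G W) =
          a * W.2.1 + b * W.1 - bf G (fun i => (v i : ℂ)) W.2.2 := by
        rw [bf_ZW]; push_cast; ring
      have e3 : bf G (fun i => W.2.2 i + (v i : ℂ)) (fun i => W.2.2 i + v i) =
          bf G W.2.2 W.2.2 + 2 * bf G (fun i => (v i : ℂ)) W.2.2 + 2 * N := by
        have : (fun i => W.2.2 i + (v i : ℂ)) = W.2.2 + fun i => (v i : ℂ) := rfl
        rw [this, bf_add_left, bf_add_right, bf_add_right, bf_intCast, hN,
          bf_comm h.symm W.2.2 (fun i => (v i : ℂ))]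
        push_cast
        ring
      funext i
      simp only [tv, Pi.add_apply, Pi.sub_apply, Pi.smul_apply, smul_eq_mul, e1, e2, e3]
      rcases i with i | i
      · match i with
        | 0 => simp [Y813.LE.mk, ZW]
        | 1 => simp [Y813.LE.mk, ZW]; ring
        | 2 => simp [Y813.LE.mk, ZW]
        | 3 => simp [Y813.LE.mk, ZW]
      · simp [Y813.LE.mk, ZW]
    have := trans_law hP hF hg hχ (W' := (W.1 + a, (W.2.1 + b, fun i => W.2.2 i + v i))) hW
      (j := 1) one_ne_zero (by rw [hact]; funext i; rw [one_mul]; rfl)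
    simpa using this
  · -- transvections
    intro W hW e u hee heu
    obtain ⟨N, hN⟩ : ∃ N : ℤ, kf G u u = 2 * N := by
      obtain ⟨N, hN⟩ := even_bf h.symm he u.2.2
      exact ⟨u.1 * u.2.1 - N, by unfold kf; rw [hN]; ring⟩
    have hee' : bf (gramM G) (kM e) (kM e) = 0 := by rw [bf_kM]; exact hee
    have hea' : bf (gramM G) (kM e) (kM u) = 0 := by rw [bf_kM]; exact heu
    have haa' : bf (gramM G) (kM u) (kM u) = 2 * N := by rw [bf_kM]; exact hN
    have hg := tvG_mem hMs (base_mem G) hee' hea' haa'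
    rw [← coneM_eq] at hg
    have hχ : χ ⟨tvG hMs hee' hea' haa', hg⟩ ^ 12 = 1 := by
      apply hc r G hP he
      right; left
      exact ⟨e, u, N, hee, heu, hN, rfl⟩
    set W' : TP r := W + kf G (cK e) W • cK u -
      (kf G (cK u) W + ((kf G u u : ℤ) : ℂ) / 2 * kf G (cK e) W) • cK e with hW'
    obtain ⟨b', hact⟩ : ∃ b', act (tvG hMs hee' hea' haa').val (ZW G W) =
        Y813.LE.mk 1 b' W'.1 W'.2.1 W'.2.2 := by
      refine ⟨act (tvM (gramM G) (kM e) (kM u) N) (ZW G W) (.inl 1), ?_⟩
      show act (tvM _ _ _ _) (ZW G W) = _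
      rw [act_tvM hMs]
      funext i
      have hN2 : ((kf G u u : ℤ) : ℂ) / 2 = (N : ℂ) := by rw [hN]; push_cast; ring
      rcases i with i | i
      · match i with
        | 0 =>
          simp only [tv, Pi.add_apply, Pi.sub_apply, Pi.smul_apply, smul_eq_mul, bf_kM_ZW]
          simp [Y813.LE.mk, ZW, kM]
        | 1 => rfl
        | 2 =>
          simp only [tv, Pi.add_apply, Pi.sub_apply, Pi.smul_apply, smul_eq_mul, bf_kM_ZW]
          rw [hW', hN2]
          simp [Y813.LE.mk, ZW, cK, kM]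
          ring
        | 3 =>
          simp only [tv, Pi.add_apply, Pi.sub_apply, Pi.smul_apply, smul_eq_mul, bf_kM_ZW]
          rw [hW', hN2]
          simp [Y813.LE.mk, ZW, cK, kM]
          ring
      · simp only [tv, Pi.add_apply, Pi.sub_apply, Pi.smul_apply, smul_eq_mul, bf_kM_ZW]
        rw [hW', hN2]
        simp [Y813.LE.mk, ZW, cK, kM]
        ring
    have hq := disc_quadric hP hg hW
    rw [hact] at hq
    have := trans_law hP hF hg hχ (W' := W') hW (j := 1) one_ne_zero
      (by rw [hact, eq_ZW G hq]; funext i; rw [one_mul])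
    simpa using this
  · -- S
    intro W hW
    have hτ : W.2.1 ≠ 0 := by
      intro h0
      have h1 : 0 < W.2.1.im := hW.1
      rw [h0] at h1
      simp at h1
    have hχ : χ ⟨blkG PS_mul PS_mul', PS_mem⟩ ^ 12 = 1 := by
      apply hc r G hP he
      right; right; left
      rfl
    have hact : act (blkG PS_mul PS_mul').val (ZW G W) =
        Y813.LE.mk W.2.1 W.1 (-(bf G W.2.2 W.2.2 / 2 - W.1 * W.2.1)) (-1) W.2.2 := by
      show act (blk PS) (ZW G W) = _
      rw [ZW, act_PS]
    have hq := disc_quadric hP PS_mem hW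
    rw [hact] at hq
    have := trans_law hP hF PS_mem hχ
      (W' := (W.1 - bf G W.2.2 W.2.2 / (2 * W.2.1), (-1 / W.2.1, fun i => W.2.2 i / W.2.1))) hW
      (j := W.2.1) hτ (by
        rw [hact, eq_smul_ZW hτ (quadric_eq hq)]
        funext i
        congr 3
        field_simp
        ring)
    exact this
  · -- swap
    intro W hW
    have hχ : χ ⟨blkG PW_mul PW_mul, PW_mem⟩ ^ 12 = 1 := by
      apply hc r G hP he
      right; right; right; left
      rfl
    have hact : act (blkG PW_mul PW_mul).val (ZW G W) =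
        Y813.LE.mk 1 (bf G W.2.2 W.2.2 / 2 - W.1 * W.2.1) W.2.1 W.1 W.2.2 := by
      show act (blk PW) (ZW G W) = _
      rw [ZW, act_PW]
    have := trans_law hP hF PW_mem hχ (W' := (W.2.1, (W.1, W.2.2))) hW (j := 1) one_ne_zero (by
        rw [hact]
        funext i
        rw [one_mul, ZW]
        simp only
        congr 2
        ring)
    simpa using this
  · -- reflections
    intro W hW e hee
    have hee' : bf (gramM G) (kM e) (kM e) = -2 := by rw [bf_kM]; exact hee
    have hg := rfG_mem hP hee hee'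
    have hχ : χ ⟨rfG hMs hee', hg⟩ ^ 12 = 1 := by
      apply hc r G hP he
      right; right; right; right
      refine ⟨e, hee, fun x => ?_⟩
      show act (rfM (gramM G) (kM e)) x = _
      rw [act_rfM hMs]
      simp
    set W' : TP r := W + kf G (cK e) W • cK e with hW'
    obtain ⟨b', hact⟩ : ∃ b', act (rfG hMs hee').val (ZW G W) =
        Y813.LE.mk 1 b' W'.1 W'.2.1 W'.2.2 := by
      refine ⟨act (rfM (gramM G) (kM e)) (ZW G W) (.inl 1), ?_⟩
      show act (rfM (gramM G) (kM e)) (ZW G W) = _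
      rw [act_rfM hMs]
      funext i
      rcases i with i | i
      · match i with
        | 0 =>
          simp only [Pi.add_apply, Pi.smul_apply, smul_eq_mul, bf_kM_ZW]
          simp [Y813.LE.mk, ZW, kM]
        | 1 => rfl
        | 2 =>
          simp only [Pi.add_apply, Pi.smul_apply, smul_eq_mul, bf_kM_ZW]
          rw [hW']
          simp [Y813.LE.mk, ZW, cK, kM]
        | 3 =>
          simp only [Pi.add_apply, Pi.smul_apply, smul_eq_mul, bf_kM_ZW]
          rw [hW']
          simp [Y813.LE.mk, ZW, cK, kM]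
      · simp only [Pi.add_apply, Pi.smul_apply, smul_eq_mul, bf_kM_ZW]
        rw [hW']
        simp [Y813.LE.mk, ZW, cK, kM]
    have hq := disc_quadric hP hg hW
    rw [hact] at hq
    have := trans_law hP hF hg hχ (W' := W') hW (j := 1) one_ne_zero
      (by rw [hact, eq_ZW G hq]; funext i; rw [one_mul])
    simpa using this
  · -- zeros
    intro W hW hFW
    have h0 : F₀ (ZW G W) = 0 := (pow_eq_zero_iff (by norm_num)).1 hFW
    obtain ⟨S, U, u, h1, h2, h3, h4, h5, h6, h7⟩ := hD _ (ZW_mem_cone hP hW)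
    have hUA : ZW G W ∈ U ∩ coneM G := ⟨h4, ZW_mem_cone hP hW⟩
    have h8 := h7 _ hUA
    rw [h0] at h8
    have h9 : ∏ v ∈ S, form (gramM G) (fun i => (v i : ℂ)) (ZW G W) = 0 := by
      rcases mul_eq_zero.1 h8.symm with h | h
      · exact absurd h (h6 _ hUA)
      · exact h
    obtain ⟨w, hw, hw0⟩ := Finset.prod_eq_zero_iff.1 h9
    have h10 := vec_wall (h1 w hw).1 (h1 w hw).2
    exact ⟨_, _, _, _, _, h10.1, h10.2⟩
  · -- simple
    intro W₀ hW₀ a b m n v hv hv0 huniq
    obtain ⟨S, U, u, h1, h2, h3, h4, h5, h6, h7⟩ := hD _ (ZW_mem_cone hP hW₀)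
    set w₀ : Fin 4 ⊕ Fin r → ℤ := Y813.LE.mk a b n m (-v) with hw₀
    have hw₀n : form (gramM G) w₀ w₀ = -2 := by
      rw [hw₀, form_vv]
      linarith
    have hw₀z : form (gramM G) (fun i => (w₀ i : ℂ)) (ZW G W₀) = 0 := by
      rw [hw₀, form_WL]
      exact hv0
    have hS : ∀ w ∈ S, w = w₀ ∨ w = -w₀ := by
      intro w hw
      have h10 := vec_wall (h1 w hw).1 (h1 w hw).2
      rcases huniq _ _ _ _ _ h10.1 h10.2 with ⟨q1, q2, q3, q4, q5⟩ | ⟨q1, q2, q3, q4, q5⟩
      · left
        rw [vec_eq w, q1, q2, q3, q4, q5]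
      · right
        rw [vec_eq w, q1, q2, q3, q4, q5, hw₀]
        funext i
        rcases i with i | i
        · match i with
          | 0 => simp [Y813.LE.mk]
          | 1 => simp [Y813.LE.mk]
          | 2 => simp [Y813.LE.mk]
          | 3 => simp [Y813.LE.mk]
        · simp [Y813.LE.mk]
    have hiff := h2 w₀ hw₀n hw₀z
    have hne : w₀ ≠ -w₀ := by
      intro heq
      by_cases hm : w₀ ∈ S
      · exact (hiff.1 hm) (heq ▸ hm)
      · exact hm (hiff.2 (heq ▸ hm))
    have hcases : S = {w₀} ∨ S = {-w₀} := by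
      by_cases hm : w₀ ∈ S
      · left
        have hnm := hiff.1 hm
        ext w
        rw [Finset.mem_singleton]
        constructor
        · intro hw
          rcases hS w hw with h | h
          · exact h
          · rw [h] at hw
            exact absurd hw hnm
        · rintro rfl
          exact hm
      · right
        have hnm : -w₀ ∈ S := by
          by_contra hcon
          exact hm (hiff.2 hcon)
        ext w
        rw [Finset.mem_singleton]
        constructor
        · intro hw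
          rcases hS w hw with h | h
          · rw [h] at hw
            exact absurd hw hm
          · exact h
        · rintro rfl
          exact hnm
    have hprod : ∀ W : TP r, (∏ w ∈ S, form (gramM G) (fun i => (w i : ℂ)) (ZW G W)) ^ 12 =
        WL G a b m n v W ^ 12 := by
      intro W
      have e1 : form (gramM G) (fun i => (w₀ i : ℂ)) (ZW G W) = WL G a b m n v W := by
        rw [hw₀, form_WL]
      have e2 : form (gramM G) (fun i => ((-w₀) i : ℂ)) (ZW G W) = -WL G a b m n v W := by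
        rw [← e1]
        have : (fun i => (((-w₀) i : ℤ) : ℂ)) = -fun i => (w₀ i : ℂ) := by funext i; simp
        show bf _ _ _ = - bf _ _ _
        rw [← bf_neg_left]
        congr 1
      rcases hcases with h | h
      · rw [h, Finset.prod_singleton, e1]
      · rw [h, Finset.prod_singleton]
        have e3 : (fun i => (((-w₀) i : ℤ) : ℂ)) = -fun i => (w₀ i : ℂ) := by funext i; simp
        have e4 : form (gramM G) (fun i => (((-w₀) i : ℤ) : ℂ)) (ZW G W) =
            -WL G a b m n v W := by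
          rw [e3, ← e1]
          exact bf_neg_left _ _ _
        rw [e4]
        exact Even.neg_pow (by decide) _
    refine ⟨ZW G ⁻¹' U ∩ Hd G, fun W => u (ZW G W) ^ 12,
      (h3.preimage continuous_ZW).inter isOpen_Hd, ⟨h4, hW₀⟩, fun W hW => hW.2, ?_, ?_, ?_⟩
    · exact (h5.comp diff_ZW.differentiableOn fun W hW => ⟨hW.1, ZW_mem_cone hP hW.2⟩).pow 12
    · intro W hW
      exact pow_ne_zero _ (h6 _ ⟨hW.1, ZW_mem_cone hP hW.2⟩)
    · intro W hW
      show F₀ (ZW G W) ^ 12 = _
      rw [h7 _ ⟨hW.1, ZW_mem_cone hP hW.2⟩, mul_pow, hprod]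
  · -- nonzero
    refine ⟨(3 * Complex.I, (Complex.I, 0)), Hd_base, ?_⟩
    have hcone := ZW_mem_cone hP (Hd_base (G := G))
    obtain ⟨S, U, u, h1, h2, h3, h4, h5, h6, h7⟩ := hD _ hcone
    have hS : S = ∅ := by
      rw [Finset.eq_empty_iff_forall_notMem]
      intro w hw
      have h10 := vec_wall (h1 w hw).1 (h1 w hw).2
      exact no_wall h h10.1 h10.2
    apply pow_ne_zero
    rw [h7 _ ⟨h4, hcone⟩, hS, Finset.prod_empty, mul_one]
    exact h6 _ ⟨h4, hcone⟩

end

end Pool.Agent.Y448.LE
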